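import Pool.Agent.Helper89.OS.St1

/-!
# Project OS (MP_2b6189_al), module GRP: identities in `SL(2, Z/L)`
-/

set_option autoImplicit false

namespace Pool.Agent.Helper19.OS

open Matrix Pool.Agent.Helper94.YF Pool.Agent.Helper94.YG Pool.Agent.Helper89.OS

private theorem ext4 {L : ℕ} {A B : SL L} (h1 : A.1 0 0 = B.1 0 0) (h2 : A.1 0 1 = B.1 0 1)
    (h3 : A.1 1 0 = B.1 1 0) (h4 : A.1 1 1 = B.1 1 1) : A = B := by
  apply Subtype.ext
  ext i j
  fin_cases i <;> fin_cases j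
  · exact h1
  · exact h2
  · exact h3
  · exact h4

private theorem mulE {L : ℕ} (A B : SL L) (i j : Fin 2) :
    (A * B).1 i j = A.1 i 0 * B.1 0 j + A.1 i 1 * B.1 1 j := by
  change (A.1 * B.1) i j = _
  rw [Matrix.mul_apply, Fin.sum_univ_two]

private theorem u00 {L : ℕ} (z : ZMod L) : (U z).1 0 0 = 1 := rfl
private theorem u01 {L : ℕ} (z : ZMod L) : (U z).1 0 1 = z := rfl
private theorem u10 {L : ℕ} (z : ZMod L) : (U z).1 1 0 = 0 := rfl
private theorem u11 {L : ℕ} (z : ZMod L) : (U z).1 1 1 = 1 := rfl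
private theorem l00 {L : ℕ} (z : ZMod L) : (Lo z).1 0 0 = 1 := rfl
private theorem l01 {L : ℕ} (z : ZMod L) : (Lo z).1 0 1 = 0 := rfl
private theorem l10 {L : ℕ} (z : ZMod L) : (Lo z).1 1 0 = z := rfl
private theorem l11 {L : ℕ} (z : ZMod L) : (Lo z).1 1 1 = 1 := rfl
private theorem m00 {L : ℕ} : (Sm : SL L).1 0 0 = 0 := rfl
private theorem m01 {L : ℕ} : (Sm : SL L).1 0 1 = -1 := rfl
private theorem m10 {L : ℕ} : (Sm : SL L).1 1 0 = 1 := rfl
private theorem m11 {L : ℕ} : (Sm : SL L).1 1 1 = 0 := rfl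
private theorem d00 {L : ℕ} (c : (ZMod L)ˣ) : (Dg c).1 0 0 = (c : ZMod L) := rfl
private theorem d01 {L : ℕ} (c : (ZMod L)ˣ) : (Dg c).1 0 1 = 0 := rfl
private theorem d10 {L : ℕ} (c : (ZMod L)ˣ) : (Dg c).1 1 0 = 0 := rfl
private theorem d11 {L : ℕ} (c : (ZMod L)ˣ) : (Dg c).1 1 1 = ((c⁻¹ : (ZMod L)ˣ) : ZMod L) := rfl
private theorem o00 {L : ℕ} : (1 : SL L).1 0 0 = 1 := rfl
private theorem o01 {L : ℕ} : (1 : SL L).1 0 1 = 0 := rfl
private theorem o10 {L : ℕ} : (1 : SL L).1 1 0 = 0 := rfl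
private theorem o11 {L : ℕ} : (1 : SL L).1 1 1 = 1 := rfl

private theorem s00 {L : ℕ} {b : ZMod L} (hb : b * b = b) : (s2 b).1 0 0 = 1 - b := by
  simp only [s2, mulE, u00, u01, u10, u11, l00, l01, l10, l11]
  linear_combination (-1 : ZMod L) * hb
private theorem s01 {L : ℕ} {b : ZMod L} (hb : b * b = b) : (s2 b).1 0 1 = -b := by
  simp only [s2, mulE, u00, u01, u10, u11, l00, l01, l10, l11]
  grind
private theorem s10 {L : ℕ} {b : ZMod L} : (s2 b).1 1 0 = b := by
  simp only [s2, mulE, u00, u01, u10, u11, l00, l01, l10, l11]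
  ring
private theorem s11 {L : ℕ} {b : ZMod L} (hb : b * b = b) : (s2 b).1 1 1 = 1 - b := by
  simp only [s2, mulE, u00, u01, u10, u11, l00, l01, l10, l11]
  linear_combination (-1 : ZMod L) * hb

theorem hGRP : StGRP := by
  intro L P b j tu hb hj htu hmul
  have hb' : (1 - b) * (1 - b) = 1 - b := by linear_combination hb
  have hbx : ∀ x, b * j x = j x := by
    intro x
    rw [← hj.one, ← hj.mul, one_mul]
  have hneg : ∀ x, j (-x) = - j x := by
    intro x
    have h := hj.add x (-x)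
    rw [add_neg_cancel, hj.zero] at h
    linear_combination -h
  have htu1 : tu 1 = 1 := by
    apply Units.ext
    rw [htu 1, Units.val_one, hj.one, Units.val_one]
    ring
  have hinv : ∀ w, (tu w)⁻¹ = tu w⁻¹ := by
    intro w
    rw [inv_eq_iff_mul_eq_one, ← hmul, mul_inv_cancel, htu1]
  have hxy : ∀ w : (ZMod P)ˣ, j (w : ZMod P) * j ((w⁻¹ : (ZMod P)ˣ) : ZMod P) = b := by
    intro w
    rw [← hj.mul, Units.mul_inv, hj.one]
  have hm1 : ((tu (-1) : (ZMod L)ˣ) : ZMod L) = 1 - 2 * b := by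
    rw [htu, Units.val_neg, Units.val_one, hneg, hj.one]
    ring
  have hm1' : (((tu (-1))⁻¹ : (ZMod L)ˣ) : ZMod L) = 1 - 2 * b := by
    rw [hinv]
    have : ((-1 : (ZMod P)ˣ))⁻¹ = -1 := by simp
    rw [this, hm1]
  have hss : (s2 b * s2 b : SL L) = Dg (tu (-1)) := by
    apply ext4 <;> simp only [mulE, s00 hb, s01 hb, s10, s11 hb, d00, d01, d10, d11, hm1, hm1']
    all_goals clear hinv htu1 hneg hbx hj htu hmul hxy hm1 hm1'
    all_goals grind
  have hDD : ∀ c c' : (ZMod L)ˣ, (Dg (c * c') : SL L) = Dg c * Dg c' := by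
    intro c c'
    apply ext4 <;> simp only [mulE, d00, d01, d10, d11, mul_inv, Units.val_mul] <;> ring
  have hD1 : (Dg (1 : (ZMod L)ˣ) : SL L) = 1 := by
    apply ext4 <;> simp [d00, d01, d10, d11, o00, o01, o10, o11]
  have hDm : (Dg (tu (-1)) * Dg (tu (-1)) : SL L) = 1 := by
    rw [← hDD, ← hmul]
    have : (-1 : (ZMod P)ˣ) * -1 = 1 := by simp
    rw [this, htu1, hD1]
  refine ⟨?_, ?_, hss, ?_, ?_, ?_, ?_, ?_, ?_, ?_, ?_, hDD, hD1⟩
  · clear hDm hD1 hDD hss hm1' hm1 hxy hinv htu1 hneg hbx hj htu hmul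
    apply ext4 <;> simp only [mulE, s00 hb, s01 hb, s10, s11 hb, s00 hb', s01 hb', s11 hb', m00, m01,
      m10, m11]
    all_goals grind
  · clear hDm hD1 hDD hss hm1' hm1 hxy hinv htu1 hneg hbx hj htu hmul
    apply ext4 <;> simp only [mulE, s00 hb, s01 hb, s10, s11 hb, s00 hb', s01 hb', s11 hb', m00, m01,
      m10, m11]
    all_goals grind
  · rw [inv_eq_iff_mul_eq_one, ← mul_assoc, hss, hDm]
  · clear hDm hD1 hDD hss hm1' hm1 hxy hinv htu1 hneg hbx hj htu hmul
    apply ext4 <;> simp only [mulE, s00 hb, s01 hb, s10, s11 hb, u00, u01, u10, u11]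
    all_goals grind
  · clear hDm hD1 hDD hss hm1' hm1 hxy hinv htu1 hneg hbx hj htu hmul
    apply ext4 <;> simp only [mulE, s00 hb', s01 hb', s10, s11 hb', u00, u01, u10, u11]
    all_goals grind
  · intro w
    have h1 := hbx (w : ZMod P)
    have h2 := hbx ((w⁻¹ : (ZMod P)ˣ) : ZMod P)
    have h3 := hxy w
    apply ext4 <;> simp only [mulE, s00 hb, s01 hb, s10, s11 hb, u00, u01, u10, u11, d00, d01, d10, d11,
      hinv, htu]
    all_goals clear hDm hD1 hDD hss hm1' hm1 hxy hinv htu1 hneg hbx hj htu hmul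
    all_goals generalize j (w : ZMod P) = x at *
    all_goals generalize j ((w⁻¹ : (ZMod P)ˣ) : ZMod P) = y at *
    all_goals grind
  · intro w
    have h1 := hbx (w : ZMod P)
    have h2 := hbx ((w⁻¹ : (ZMod P)ˣ) : ZMod P)
    apply ext4 <;> simp only [mulE, s00 hb, s01 hb, s10, s11 hb, d00, d01, d10, d11, hinv, htu, inv_inv]
    all_goals clear hDm hD1 hDD hss hm1' hm1 hxy hinv htu1 hneg hbx hj htu hmul
    all_goals generalize j (w : ZMod P) = x at *
    all_goals generalize j ((w⁻¹ : (ZMod P)ˣ) : ZMod P) = y at *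
    all_goals grind
  · intro w
    have h1 := hbx (w : ZMod P)
    have h2 := hbx ((w⁻¹ : (ZMod P)ˣ) : ZMod P)
    apply ext4 <;> simp only [mulE, s00 hb', s01 hb', s10, s11 hb', d00, d01, d10, d11, hinv, htu]
    all_goals clear hDm hD1 hDD hss hm1' hm1 hxy hinv htu1 hneg hbx hj htu hmul
    all_goals generalize j (w : ZMod P) = x at *
    all_goals generalize j ((w⁻¹ : (ZMod P)ˣ) : ZMod P) = y at *
    all_goals grind
  · intro c x
    have hc : (c : ZMod L) * ((c⁻¹ : (ZMod L)ˣ) : ZMod L) = 1 := Units.mul_inv c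
    apply ext4 <;> simp only [mulE, u00, u01, u10, u11, d00, d01, d10, d11]
    · ring
    · linear_combination (-(c : ZMod L) * x) * hc
    · ring
    · ring
  · intro x hx
    rw [mul_assoc, inv_mul_eq_iff_eq_mul]
    apply ext4 <;> simp only [mulE, s00 hb, s01 hb, s10, s11 hb, u00, u01, u10, u11, l00, l01, l10, l11]
    all_goals clear hDm hD1 hDD hss hm1' hm1 hxy hinv htu1 hneg hbx hj htu hmul
    all_goals grind

end Pool.Agent.Helper19.OS
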